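import Mathlib
import Pool.Agent.Helper79.JC.Defs
import Pool.Agent.Helper15.KP.HFb

/-!
# JC, block FAM: the correspondence given by a finite morphism
-/

set_option linter.unusedSectionVars false

namespace Pool.Agent.Helper70.JC

open VC _root_.VF Function Polynomial Pool.Agent.Helper21.TO Pool.Agent.Helper15.GT Pool.Agent.Helper15.KP

universe u

section aux

variable {k E F A : Type u} [Field k] [IsAlgClosed k] [CharZero k] [Field E] [Algebra k E] [Field F]
  [Algebra k F] [Field A] [Algebra k A] [IsAlgClosed A]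

lemma fixed_range (e : E →ₐ[k] A) (he : ∀ x : A, ∃ p : Polynomial E, p ≠ 0 ∧ p.eval₂ (e : E →+* A) x = 0) (z : A)
    (hz : ∀ σ : A ≃ₐ[k] A, ((σ : A →ₐ[k] A).comp e = e) → σ z = z) : z ∈ Set.range e := by
  have hE : CharZero E := charZero_of_injective_algebraMap (algebraMap k E).injective
  let _ : Algebra E A := e.toRingHom.toAlgebra
  have : Algebra.IsAlgebraic E A := ⟨fun x => by
    obtain ⟨p, hp, h⟩ := he x
    exact ⟨p, hp, h⟩⟩
  have : IsAlgClosure E A := ⟨inferInstance, inferInstance⟩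
  have : Normal E A := IsAlgClosure.normal E A
  have : IsGalois E A := ⟨⟩
  have h1 := (InfiniteGalois.mem_range_algebraMap_iff_fixed (k := E) (K := A) z).mpr ?_
  · obtain ⟨x, hx⟩ := h1
    exact ⟨x, hx⟩
  · intro σ
    have h4 : ∀ c : k, σ (algebraMap k A c) = algebraMap k A c := by
      intro c
      have h3 := σ.commutes (algebraMap k E c)
      change σ (e (algebraMap k E c)) = e (algebraMap k E c) at h3
      rw [e.commutes] at h3
      exact h3
    have h2 := hz (AlgEquiv.ofRingEquiv (f := σ.toRingEquiv) h4) (by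
        ext x
        exact σ.commutes x)
    exact h2

lemma exists_auto {B : Type u} [Field B] [Algebra k B] [IsAlgClosed B] (e : E →ₐ[k] A) (e' : E →ₐ[k] B)
    (he : ∀ x : A, ∃ p : Polynomial E, p ≠ 0 ∧ p.eval₂ (e : E →+* A) x = 0)
    (he' : ∀ x : B, ∃ p : Polynomial E, p ≠ 0 ∧ p.eval₂ (e' : E →+* B) x = 0) :
    ∃ σ : A ≃ₐ[k] B, (σ : A →ₐ[k] B).comp e = e' := by
  let _ : Algebra E A := e.toRingHom.toAlgebra
  let _ : Algebra E B := e'.toRingHom.toAlgebra
  have : Algebra.IsAlgebraic E A := ⟨fun x => by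
    obtain ⟨p, hp, h⟩ := he x
    exact ⟨p, hp, h⟩⟩
  have : Algebra.IsAlgebraic E B := ⟨fun x => by
    obtain ⟨p, hp, h⟩ := he' x
    exact ⟨p, hp, h⟩⟩
  have : IsAlgClosure E A := ⟨inferInstance, inferInstance⟩
  have : IsAlgClosure E B := ⟨inferInstance, inferInstance⟩
  let τ : A ≃ₐ[E] B := IsAlgClosure.equiv E A B
  have h4 : ∀ c : k, τ (algebraMap k A c) = algebraMap k B c := by
    intro c
    have h3 := τ.commutes (algebraMap k E c)
    change τ (e (algebraMap k E c)) = e' (algebraMap k E c) at h3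
    rw [e.commutes, e'.commutes] at h3
    exact h3
  refine ⟨AlgEquiv.ofRingEquiv (f := τ.toRingEquiv) h4, ?_⟩
  ext x
  exact τ.commutes x

/-- A field which is algebraic over `F` is algebraic over `E`, if `F` is finite over `E`. -/
lemma alg_comp (iA : F →ₐ[k] A) (halg : ∀ z : A, ∃ p : F[X], p ≠ 0 ∧ p.eval₂ (iA : F →+* A) z = 0)
    (f : E →ₐ[k] F) (hf : (f : E →+* F).Finite) (x : A) :
    ∃ p : Polynomial E, p ≠ 0 ∧ p.eval₂ ((iA.comp f : E →ₐ[k] A) : E →+* A) x = 0 := by
  let _ : Algebra E F := f.toRingHom.toAlgebra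
  have : FiniteDimensional E F := hf
  let _ : Algebra F A := iA.toRingHom.toAlgebra
  let _ : Algebra E A := (iA.toRingHom.comp f.toRingHom).toAlgebra
  have : IsScalarTower E F A := IsScalarTower.of_algebraMap_eq fun x => rfl
  have : Algebra.IsAlgebraic F A := ⟨fun x => by
    obtain ⟨p, hp, h⟩ := halg x
    exact ⟨p, hp, h⟩⟩
  have : Algebra.IsAlgebraic E A := Algebra.IsAlgebraic.trans E F A
  obtain ⟨p, hp, h⟩ := Algebra.IsAlgebraic.isAlgebraic (R := E) x
  exact ⟨p, hp, h⟩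

/-- The embeddings `σ` of `F` in `A` with `σ f = e`. -/
abbrev EmA (f : E →ₐ[k] F) (e : E →ₐ[k] A) : Type u := {σ : F →ₐ[k] A // ∀ z : E, σ (f z) = e z}

lemma finite_emA (f : E →ₐ[k] F) (hf : (f : E →+* F).Finite) (e : E →ₐ[k] A) : Finite (EmA f e) := by
  let _ : Algebra E F := f.toRingHom.toAlgebra
  let _ : Algebra E A := e.toRingHom.toAlgebra
  have : FiniteDimensional E F := hf
  let g : EmA f e → (F →ₐ[E] A) := fun σ =>
    { σ.1.toRingHom with
      commutes' := fun c => σ.2 c }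
  refine Finite.of_injective g fun a b h => Subtype.ext ?_
  ext z
  exact DFunLike.congr_fun h z

/-- Two sets of embeddings are in bijection by an automorphism. -/
def emAEquiv (f : E →ₐ[k] F) {e e' : E →ₐ[k] A} (τ : A ≃ₐ[k] A) (hτ : (τ : A →ₐ[k] A).comp e = e') :
    EmA f e ≃ EmA f e' where
  toFun σ := ⟨(τ : A →ₐ[k] A).comp σ.1, fun z => by
    rw [← hτ]
    change τ (σ.1 (f z)) = τ (e z)
    rw [σ.2 z]⟩
  invFun σ := ⟨(τ.symm : A →ₐ[k] A).comp σ.1, fun z => by
    change τ.symm (σ.1 (f z)) = e z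
    rw [σ.2 z, ← hτ]
    exact τ.symm_apply_apply _⟩
  left_inv σ := Subtype.ext (by
    ext z
    exact τ.symm_apply_apply _)
  right_inv σ := Subtype.ext (by
    ext z
    exact τ.apply_symm_apply _)

end aux

theorem fam : Pool.Agent.Helper79.JC.StmtFam.{u} := by
  classical
  intro k E F A _ _ _ _ _ _ _ _ _ _ iA halg f hf N ξ hξ
  have := finite_emA f hf (iA.comp f)
  let _ : Fintype (EmA f (iA.comp f)) := Fintype.ofFinite _
  have : Nonempty (EmA f (iA.comp f)) := ⟨⟨iA, fun z => rfl⟩⟩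
  obtain ⟨η, hη, hcor, hev⟩ := exists_fam (fun σ : EmA f (iA.comp f) => σ.1) (iA.comp f) ξ hξ
    (fun l => nm_mem_of_perm (fun σ : EmA f (iA.comp f) => σ.1) (iA.comp f)
      {σ | (σ : A →ₐ[k] A).comp (iA.comp f) = iA.comp f}
      (fun z hz => fixed_range (iA.comp f) (alg_comp iA halg f hf) z fun σ hσ => hz σ hσ)
      (fun σ hσ => ⟨emAEquiv f σ hσ, fun j x => rfl⟩) ξ l)
  refine ⟨_, η, hη, _, hcor, fun g hg w => ⟨finite_emA f hf (iA.comp g), ?_⟩⟩
  obtain ⟨τ, hτ⟩ := exists_auto (iA.comp f) (iA.comp g) (alg_comp iA halg f hf) (alg_comp iA halg g hg)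
  have h1 := hev (w.comap (τ : A →ₐ[k] A))
  rw [RPl.comap_comap, hτ] at h1
  rw [h1, ← finsum_eq_sum_of_fintype]
  refine finsum_eq_of_bijective (emAEquiv f τ hτ) (emAEquiv f τ hτ).bijective fun σ => ?_
  rw [RPl.comap_comap]
  rfl

end Pool.Agent.Helper70.JC
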