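import Mathlib
import Pool.Agent.Helper79.JC.Defs

/-!
# JC, block ADD: sums of harmonic functions

The closure of the point `η` dominates the closure of the point `ξ` if `ξ` is, up to factors, contained in `η` in
such a way that all coordinates of `η` are used.
-/

set_option linter.unusedSectionVars false

namespace Pool.Agent.Helper70.JC

open VC _root_.VF Function Polynomial Pool.Agent.Helper21.TO Pool.Agent.Helper15.GT Pool.Agent.Helper15.KP

universe u

section col

variable {k F : Type u} [Field k] [IsAlgClosed k] [CharZero k] [Field F] [Algebra k F]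
  {N m : ℕ} {ξ : Fin N → F} {η : Fin m → F} {S : Type*} {τ : S → Fin N → Fin m} {g : S → F}

/-- The columns of a point of the closure of `η` are points of the closure of `ξ`. -/
lemma sat_col (hg : ∀ s i, η (τ s i) = g s * ξ i) {K : Type u} [Field K] [Algebra k K] {b : Fin m → K}
    (hb : Sat (van k η) b) (s : S) : Sat (van k ξ) (fun i => b (τ s i)) := by
  intro P hP n hn
  have h1 := hb (MvPolynomial.rename (τ s) P) (by
    change MvPolynomial.aeval η (MvPolynomial.rename (τ s) P) = 0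
    rw [MvPolynomial.aeval_rename]
    have h2 : η ∘ τ s = fun i => g s * ξ i := funext (hg s)
    have h3 : MvPolynomial.aeval ξ P = 0 := hP
    rw [h2, aeval_smul' hn, h3, mul_zero]) n hn.rename_isHomogeneous
  rwa [MvPolynomial.aeval_rename] at h1

/-- The columns are proportional. -/
lemma col_cross (hg : ∀ s i, η (τ s i) = g s * ξ i) {K : Type u} [Field K] [Algebra k K] {b : Fin m → K}
    (hb : Sat (van k η) b) (s t : S) (i j : Fin N) : b (τ s i) * b (τ t j) = b (τ s j) * b (τ t i) := by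
  have h1 := hb (MvPolynomial.X (τ s i) * MvPolynomial.X (τ t j) - MvPolynomial.X (τ s j) * MvPolynomial.X (τ t i)) (by
    change MvPolynomial.aeval η _ = 0
    simp only [map_sub, map_mul, MvPolynomial.aeval_X, hg]
    ring) 2 (((MvPolynomial.isHomogeneous_X k _).mul (MvPolynomial.isHomogeneous_X k _)).sub
      ((MvPolynomial.isHomogeneous_X k _).mul (MvPolynomial.isHomogeneous_X k _)))
  simp only [map_sub, map_mul, MvPolynomial.aeval_X] at h1
  exact sub_eq_zero.mp h1

lemma exists_col (hs : ∀ l, ∃ s i, τ s i = l) {K : Type u} [Field K] {b : Fin m → K} (hb : b ≠ 0) :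
    ∃ s, (fun i => b (τ s i)) ≠ 0 := by
  obtain ⟨l, hl⟩ := Function.ne_iff.mp hb
  obtain ⟨s, i, rfl⟩ := hs l
  exact ⟨s, fun h => hl (congrFun h i)⟩

/-- The map between the closures. -/
theorem exists_map (hg : ∀ s i, η (τ s i) = g s * ξ i) (hs : ∀ l, ∃ s i, τ s i = l) :
    ∃ θ : (proj k (van k η)).Pt → (proj k (van k ξ)).Pt, ∀ (b : Fin m → k) (hb : b ≠ 0) (h : Sat (van k η) b) (s : S)
      (h0 : (fun i => b (τ s i)) ≠ 0), θ (ppt b hb h) = ppt (fun i => b (τ s i)) h0 (sat_col hg h s) := by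
  classical
  have key : ∀ p : (proj k (van k η)).Pt, ∃ q : (proj k (van k ξ)).Pt, ∀ (b : Fin m → k) (hb : b ≠ 0)
      (h : Sat (van k η) b) (_ : p = ppt b hb h) (s : S)
      (h0 : (fun i => b (τ s i)) ≠ 0), q = ppt (fun i => b (τ s i)) h0 (sat_col hg h s) := by
    intro p
    obtain ⟨a, ha, h, rfl⟩ := exists_ppt p
    obtain ⟨t, ht⟩ := exists_col hs ha
    refine ⟨ppt _ ht (sat_col hg h t), fun b hb h' hab s h0 => ?_⟩
    obtain ⟨c, hc⟩ := ppt_eq_iff.mp hab
    apply ppt_eq_of_cross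
    intro i j
    beta_reduce
    rw [← hc, ← hc, mul_assoc, mul_assoc, mul_comm (b (τ t i)), mul_comm (b (τ t j)), col_cross hg h' s t j i]
  choose θ hθ using key
  exact ⟨θ, fun b hb h s h0 => hθ _ b hb h rfl s h0⟩

/-- A functional on the closure of `ξ` is a functional on the closure of `η`. -/
theorem kills_enlarge (hξ : ξ ≠ 0) (hη : η ≠ 0) (hg : ∀ s i, η (τ s i) = g s * ξ i) (hs : ∀ l, ∃ s i, τ s i = l)
    {φ : (proj k (van k ξ)).Pt → k} (hφ : Kills (proj k (van k ξ)) φ) :
    ∃ ψ : (proj k (van k η)).Pt → k, Kills (proj k (van k η)) ψ ∧ ∀ w : RPl k F, ψ (evP η hη w) = φ (evP ξ hξ w) := by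
  obtain ⟨θ, hθ⟩ := exists_map (k := k) hg hs
  refine ⟨fun p => φ (θ p), kills_of_gen fun K _ _ hK c f hf => ?_, fun w => ?_⟩
  · obtain ⟨B, hB, hB', rfl⟩ := exists_ppt c
    obtain ⟨t, ht⟩ := exists_col hs hB
    rw [← hφ.gen hK (ppt _ ht (sat_col hg hB' t)) hf]
    refine Finset.sum_congr rfl fun v _ => ?_
    congr 2
    obtain ⟨a, ha, h, b, hb, h', e1, e2, hv⟩ := exists_pcoord hK v (ppt B hB hB')
    rw [e2]
    obtain ⟨s, h0⟩ := exists_col hs hb
    rw [hθ b hb h' s h0]
    have h1 : (fun i => a (τ s i)) ≠ 0 := by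
      intro hc
      apply h0
      funext i
      have h2 := hv (τ s i)
      rw [show a (τ s i) = 0 from congrFun hc i] at h2
      exact h2.unique isRes_zero
    have h2 : ppt (fun i => B (τ t i)) ht (sat_col hg hB' t) = ppt (fun i => a (τ s i)) h1 (sat_col hg h s) := by
      obtain ⟨c, hc⟩ := ppt_eq_iff.mp e1
      apply ppt_eq_of_cross
      intro i j
      beta_reduce
      rw [← hc, ← hc, mul_assoc, mul_assoc, mul_comm (a (τ t i)), mul_comm (a (τ t j)), col_cross hg h s t j i]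
    rw [h2]
    exact (peval_eq hK v h1 (sat_col hg h s) h0 (sat_col hg h' s) fun i => hv _).symm
  · obtain ⟨b, hb, h, hv, e⟩ := exists_evP η hη w
    beta_reduce
    rw [e]
    obtain ⟨s, h0⟩ := exists_col hs hb
    rw [hθ b hb h s h0]
    congr 1
    obtain ⟨hb', r, hr⟩ := hv
    refine (evP_eq hξ ⟨h0, r * g s, fun i => ?_⟩ h0 (sat_col hg h s)).symm
    rw [mul_assoc, ← hg]
    exact hr _

end col

theorem add : Pool.Agent.Helper79.JC.StmtAdd.{u} := by
  intro k F _ _ _ _ _ u v hu hv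
  obtain ⟨N, ξ, hξ, φ, hφ, hu⟩ := hu
  obtain ⟨N', ξ', hξ', φ', hφ', hv⟩ := hv
  let η : Fin (N * N') → F := fun l => ξ (finProdFinEquiv.symm l).1 * ξ' (finProdFinEquiv.symm l).2
  have hη : η ≠ 0 := by
    obtain ⟨i, hi⟩ := Function.ne_iff.mp hξ
    obtain ⟨j, hj⟩ := Function.ne_iff.mp hξ'
    intro h
    have h1 := congrFun h (finProdFinEquiv (i, j))
    change ξ (finProdFinEquiv.symm (finProdFinEquiv (i, j))).1 *
      ξ' (finProdFinEquiv.symm (finProdFinEquiv (i, j))).2 = 0 at h1
    rw [Equiv.symm_apply_apply] at h1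
    exact (mul_ne_zero hi hj) h1
  obtain ⟨ψ, hψ, h1⟩ := kills_enlarge (S := Fin N') (τ := fun s i => finProdFinEquiv (i, s)) (g := ξ') hξ hη
    (fun s i => by
      change ξ (finProdFinEquiv.symm (finProdFinEquiv (i, s))).1 *
        ξ' (finProdFinEquiv.symm (finProdFinEquiv (i, s))).2 = _
      rw [Equiv.symm_apply_apply, mul_comm])
    (fun l => ⟨(finProdFinEquiv.symm l).2, (finProdFinEquiv.symm l).1, finProdFinEquiv.apply_symm_apply l⟩) hφ
  obtain ⟨ψ', hψ', h1'⟩ := kills_enlarge (S := Fin N) (τ := fun s i => finProdFinEquiv (s, i)) (g := ξ) hξ' hη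
    (fun s i => by
      change ξ (finProdFinEquiv.symm (finProdFinEquiv (s, i))).1 *
        ξ' (finProdFinEquiv.symm (finProdFinEquiv (s, i))).2 = _
      rw [Equiv.symm_apply_apply])
    (fun l => ⟨(finProdFinEquiv.symm l).1, (finProdFinEquiv.symm l).2, finProdFinEquiv.apply_symm_apply l⟩) hφ'
  refine ⟨N * N', η, hη, fun p => ψ p + ψ' p, ?_, fun w => ?_⟩
  · intro z hz
    have h2 := hψ z hz
    have h3 := hψ' z hz
    rw [Finsupp.linearCombination_apply, Finsupp.sum] at h2 h3 ⊢
    rw [← add_zero (0 : k)]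
    nth_rewrite 1 [← h2]
    rw [← h3, ← Finset.sum_add_distrib]
    refine Finset.sum_congr rfl fun p _ => ?_
    rw [smul_add]
  · beta_reduce
    rw [hu w, hv w, h1, h1']

end Pool.Agent.Helper70.JC
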